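import Mathlib.Algebra.Polynomial.Coeff
import Mathlib.Algebra.Polynomial.Derivative
import Mathlib.Algebra.Polynomial.RingDivision
import Mathlib.Algebra.Polynomial.Div
import Mathlib.Data.Real.Basic
import Mathlib.Tactic

namespace H667R4

open Polynomial

/-- The order of vanishing at `1`. -/
noncomputable def od (P : ℝ[X]) : ℕ := P.rootMultiplicity 1

theorem pow_dvd_of_le {P : ℝ[X]} {n : ℕ} (h : n ≤ od P) : (X - C 1) ^ n ∣ P :=
  (pow_dvd_pow _ h).trans (pow_rootMultiplicity_dvd P 1)

theorem le_od {P : ℝ[X]} (hP : P ≠ 0) {n : ℕ} (h : (X - C 1) ^ n ∣ P) : n ≤ od P :=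
  (le_rootMultiplicity_iff hP).2 h

theorem dvd_derivative {P : ℝ[X]} {n : ℕ} (h : (X - C 1) ^ (n + 1) ∣ P) :
    (X - C 1) ^ n ∣ derivative P := by
  obtain ⟨Q, rfl⟩ := h
  rw [derivative_mul]
  refine dvd_add ?_ ?_
  · refine Dvd.dvd.mul_right ?_ _
    rw [derivative_X_sub_C_pow]
    simp
  · exact Dvd.dvd.mul_right (pow_dvd_pow _ (Nat.le_succ n)) _

theorem od_mul {P Q : ℝ[X]} (hP : P ≠ 0) (hQ : Q ≠ 0) : od (P * Q) = od P + od Q := by
  unfold od
  exact rootMultiplicity_mul (mul_ne_zero hP hQ)

theorem coeff_X_derivative (P : ℝ[X]) (k : ℕ) : (X * derivative P).coeff k = k * P.coeff k := by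
  cases k with
  | zero => simp
  | succ k =>
    rw [coeff_X_mul, coeff_derivative]
    push_cast
    ring

/-- A nonzero polynomial vanishes at `1` to order less than its number of monomials. -/
theorem od_lt_card (n : ℕ) : ∀ P : ℝ[X], P ≠ 0 → P.support.card ≤ n + 1 → od P ≤ n := by
  induction n with
  | zero =>
    intro P hP hc
    have h1 : P.support.card = 1 := le_antisymm hc
      (Finset.card_pos.2 (by simpa [Finset.nonempty_iff_ne_empty] using hP))
    obtain ⟨k, a, ha, rfl⟩ := card_support_eq_one.1 h1
    unfold od
    rw [Nat.le_zero, rootMultiplicity_eq_zero]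
    simp [IsRoot, ha]
  | succ n ih =>
    intro P hP hc
    by_cases h0 : od P = 0
    · omega
    obtain ⟨r, hr⟩ : ∃ r, od P = r + 1 := Nat.exists_eq_succ_of_ne_zero h0
    set m := P.natDegree with hm
    set T : ℝ[X] := X * derivative P - C (m : ℝ) * P with hT
    have hcoeff : ∀ k, T.coeff k = ((k : ℝ) - m) * P.coeff k := by
      intro k
      rw [hT, coeff_sub, coeff_X_derivative, coeff_C_mul]
      ring
    have hdP : (X - C 1) ^ (r + 1) ∣ P := pow_dvd_of_le (le_of_eq hr.symm)
    have hdT : (X - C 1) ^ r ∣ T := by
      refine dvd_sub ?_ ?_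
      · exact Dvd.dvd.mul_left (dvd_derivative hdP) _
      · exact Dvd.dvd.mul_left ((pow_dvd_pow _ (Nat.le_succ r)).trans hdP) _
    by_cases hT0 : T = 0
    · have hP' : P = C P.leadingCoeff * X ^ m := by
        ext k
        rw [coeff_C_mul, coeff_X_pow]
        by_cases hk : k = m
        · simp [hk, hm]
        · have := hcoeff k
          rw [hT0, coeff_zero] at this
          rcases mul_eq_zero.1 this.symm with h | h
          · exact absurd (by exact_mod_cast sub_eq_zero.1 h) hk
          · simp [h, hk]
      exfalso
      have hroot : IsRoot P 1 := by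
        rw [← rootMultiplicity_pos hP]
        unfold od at hr
        omega
      rw [hP', IsRoot] at hroot
      simp [hP] at hroot
    · have hsub : T.support ⊆ P.support.erase m := by
        intro k hk
        rw [mem_support_iff, hcoeff] at hk
        rw [Finset.mem_erase, mem_support_iff]
        refine ⟨?_, ?_⟩
        · rintro rfl
          exact hk (by simp)
        · intro h
          exact hk (by simp [h])
      have hmem : m ∈ P.support := natDegree_mem_support_of_nonzero hP
      have hcard : T.support.card ≤ n + 1 := by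
        have := Finset.card_le_card hsub
        rw [Finset.card_erase_of_mem hmem] at this
        omega
      have h1 := ih T hT0 hcard
      have h2 := le_od hT0 hdT
      omega

theorem od_lt {P : ℝ[X]} (hP : P ≠ 0) {N : ℕ} (h : P.support.card ≤ N) : od P + 1 ≤ N := by
  have h1 : 1 ≤ P.support.card :=
    Finset.card_pos.2 (by simpa [Finset.nonempty_iff_ne_empty] using hP)
  obtain ⟨n, rfl⟩ : ∃ n, N = n + 1 := Nat.exists_eq_succ_of_ne_zero (by omega)
  have := od_lt_card n P hP h
  omega

/-- The logarithmic derivative of `f` is a quotient `R / S` with at most `N` monomials in each. -/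
def IsType (N : ℕ) (f : ℝ[X]) : Prop :=
  ∃ R S : ℝ[X], S ≠ 0 ∧ R.support.card ≤ N ∧ S.support.card ≤ N ∧ S * derivative f = R * f

theorem IsType.zero {N : ℕ} (hN : 1 ≤ N) : IsType N 0 :=
  ⟨0, 1, one_ne_zero, by simp, by
    have : (1 : ℝ[X]).support = {0} := by
      rw [← C_1, support_C one_ne_zero]
    rw [this]; simpa using hN, by simp⟩

theorem IsType.mono {N M : ℕ} (h : N ≤ M) {f : ℝ[X]} (hf : IsType N f) : IsType M f := by
  obtain ⟨R, S, h1, h2, h3, h4⟩ := hf
  exact ⟨R, S, h1, h2.trans h, h3.trans h, h4⟩

/-- The twisted derivative. -/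
noncomputable def wr (h g : ℝ[X]) : ℝ[X] := derivative g * h - g * derivative h

theorem card_add (P Q : ℝ[X]) : (P + Q).support.card ≤ P.support.card + Q.support.card :=
  (Finset.card_le_card support_add).trans (Finset.card_union_le _ _)

theorem card_sub (P Q : ℝ[X]) : (P - Q).support.card ≤ P.support.card + Q.support.card := by
  rw [sub_eq_add_neg]
  refine (card_add _ _).trans ?_
  rw [support_neg]

theorem card_deriv (P : ℝ[X]) : (derivative P).support.card ≤ P.support.card := by
  have h : (derivative P).support ⊆ P.support.image (fun k => k - 1) := by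
    intro k hk
    rw [mem_support_iff, coeff_derivative] at hk
    rw [Finset.mem_image]
    refine ⟨k + 1, ?_, by simp⟩
    rw [mem_support_iff]
    intro h
    exact hk (by simp [h])
  exact (Finset.card_le_card h).trans Finset.card_image_le

theorem card_mul {P Q : ℝ[X]} {a b : ℕ} (hP : P.support.card ≤ a) (hQ : Q.support.card ≤ b) :
    (P * Q).support.card ≤ a * b :=
  card_support_mul_le.trans (Nat.mul_le_mul hP hQ)

theorem IsType.wr {N : ℕ} (hN : 1 ≤ N) {f h : ℝ[X]} (hf : IsType N f) (hh : IsType N h) :
    IsType (8 * N ^ 4) (wr h f) := by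
  obtain ⟨Rf, Sf, hSf, hRf', hSf', ef⟩ := hf
  obtain ⟨Rh, Sh, hSh, hRh', hSh', eh⟩ := hh
  have hN4 : 1 ≤ 8 * N ^ 4 := by
    have : 1 ≤ N ^ 4 := Nat.one_le_pow _ _ hN
    omega
  set n : ℝ[X] := Rf * Sh - Rh * Sf with hn
  set P : ℝ[X] := Sf * Sh with hP
  have hP0 : P ≠ 0 := mul_ne_zero hSf hSh
  set g : ℝ[X] := H667R4.wr h f with hg
  have key : P * g = n * (f * h) := by
    rw [hP, hg, hn, H667R4.wr]
    linear_combination Sh * h * ef - Sf * f * eh
  by_cases hn0 : n = 0
  · rw [hn0, zero_mul] at key
    have : g = 0 := (mul_eq_zero.1 key).resolve_left hP0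
    rw [this]
    exact IsType.zero hN4
  · refine ⟨derivative n * P + n * (Sh * Rf + Sf * Rh) - n * derivative P, n * P,
      mul_ne_zero hn0 hP0, ?_, ?_, ?_⟩
    · have cn : n.support.card ≤ 2 * N ^ 2 := by
        refine (card_sub _ _).trans ?_
        have h1 := card_mul hRf' hSh'
        have h2 := card_mul hRh' hSf'
        nlinarith
      have cP : P.support.card ≤ N ^ 2 := by
        have h1 := card_mul hSf' hSh'
        nlinarith
      have cA : (Sh * Rf + Sf * Rh).support.card ≤ 2 * N ^ 2 := by
        refine (card_add _ _).trans ?_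
        have h1 := card_mul hSh' hRf'
        have h2 := card_mul hSf' hRh'
        nlinarith
      have c1 := card_mul ((card_deriv n).trans cn) cP
      have c2 := card_mul cn cA
      have c3 := card_mul cn ((card_deriv P).trans cP)
      refine (card_sub _ _).trans ?_
      have c4 := card_add (derivative n * P) (n * (Sh * Rf + Sf * Rh))
      calc _ ≤ (2 * N ^ 2 * N ^ 2 + 2 * N ^ 2 * (2 * N ^ 2)) + 2 * N ^ 2 * N ^ 2 := by omega
        _ = 8 * N ^ 4 := by ring
    · have cn : n.support.card ≤ 2 * N ^ 2 := by
        refine (card_sub _ _).trans ?_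
        have h1 := card_mul hRf' hSh'
        have h2 := card_mul hRh' hSf'
        nlinarith
      have cP : P.support.card ≤ N ^ 2 := by
        have h1 := card_mul hSf' hSh'
        nlinarith
      have c1 := card_mul cn cP
      calc _ ≤ 2 * N ^ 2 * N ^ 2 := c1
        _ = 2 * N ^ 4 := by ring
        _ ≤ 8 * N ^ 4 := by omega
    · have e1 : P * (derivative f * h) = Sh * Rf * (f * h) := by
        rw [hP]; linear_combination Sh * h * ef
      have e2 : P * (f * derivative h) = Sf * Rh * (f * h) := by
        rw [hP]; linear_combination Sf * f * eh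
      clear_value P n g
      have d : derivative P * g + P * derivative g =
          derivative n * (f * h) + n * (derivative f * h + f * derivative h) := by
        have d := congrArg derivative key
        rw [derivative_mul, derivative_mul, derivative_mul] at d
        exact d
      have hfin : P * (n * P * derivative g) =
          P * ((derivative n * P + n * (Sh * Rf + Sf * Rh) - n * derivative P) * g) := by
        have e3 : n * P * (derivative f * h + f * derivative h) =
            n * (Sh * Rf + Sf * Rh) * (f * h) := by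
          linear_combination n * e1 + n * e2
        linear_combination n * P * d - P * derivative n * key + n * e3
          - n * (Sh * Rf + Sf * Rh) * key
      exact mul_left_cancel₀ hP0 hfin

end H667R4
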