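import Pool.Agent.H667R4.A1
import Mathlib.LinearAlgebra.Span.Basic
import Mathlib.Algebra.BigOperators.Fin

namespace H667R4

open Polynomial

theorem natDegree_eq_of_wr {g h : ℝ[X]} (hg : g ≠ 0) (hh : h ≠ 0) (h0 : wr h g = 0) :
    g.natDegree = h.natDegree := by
  have h1 : (X * derivative g) * h = g * (X * derivative h) := by
    unfold wr at h0
    linear_combination X * h0
  have dX : ∀ P : ℝ[X], (X * derivative P).natDegree ≤ P.natDegree := by
    intro P
    rw [natDegree_le_iff_coeff_eq_zero]
    intro k hk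
    rw [coeff_X_derivative, coeff_eq_zero_of_natDegree_lt hk, mul_zero]
  have h2 : ((X * derivative g) * h).coeff (g.natDegree + h.natDegree) =
      (g * (X * derivative h)).coeff (g.natDegree + h.natDegree) := by rw [h1]
  rw [coeff_mul_add_eq_of_natDegree_le (dX g) le_rfl,
    coeff_mul_add_eq_of_natDegree_le le_rfl (dX h), coeff_X_derivative, coeff_X_derivative] at h2
  have hg' : g.coeff g.natDegree ≠ 0 := by simpa using hg
  have hh' : h.coeff h.natDegree ≠ 0 := by simpa using hh
  have h3 : ((g.natDegree : ℝ) - h.natDegree) * (g.coeff g.natDegree * h.coeff h.natDegree) = 0 := by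
    linear_combination h2
  rcases mul_eq_zero.1 h3 with h4 | h4
  · exact_mod_cast sub_eq_zero.1 h4
  · exact absurd h4 (mul_ne_zero hg' hh')

theorem proportional {g h : ℝ[X]} (hh : h ≠ 0) (h0 : wr h g = 0) : ∃ c : ℝ, g = C c * h := by
  by_cases hg : g = 0
  · exact ⟨0, by simp [hg]⟩
  set c : ℝ := g.leadingCoeff / h.leadingCoeff with hc
  refine ⟨c, ?_⟩
  by_contra hne
  have hne' : g - C c * h ≠ 0 := sub_ne_zero.2 hne
  have hlc : h.leadingCoeff ≠ 0 := by simpa using hh
  have hc0 : c ≠ 0 := div_ne_zero (by simpa using hg) hlc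
  have hw : wr h (g - C c * h) = 0 := by
    unfold wr at h0 ⊢
    simp only [derivative_sub, derivative_mul, derivative_C, zero_mul, zero_add]
    linear_combination h0
  have e1 := natDegree_eq_of_wr hg hh h0
  have e2 := natDegree_eq_of_wr hne' hh hw
  have hd : (g - C c * h).degree < g.degree := by
    apply degree_sub_lt_left
    · rw [degree_C_mul hc0, degree_eq_natDegree hg, degree_eq_natDegree hh, e1]
    · exact hg
    · rw [leadingCoeff_mul, leadingCoeff_C, hc]
      field_simp
  have := natDegree_lt_natDegree hne' hd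
  omega

/-- The bound for the order. -/
def E : ℕ → ℕ → ℕ
  | 0, _ => 0
  | B + 1, N => 2 * N ^ 2 + E B (8 * N ^ 4)

theorem E_mono (B : ℕ) : ∀ {N M : ℕ}, N ≤ M → E B N ≤ E B M := by
  induction B with
  | zero => intro N M _; simp [E]
  | succ B ih =>
    intro N M h
    simp only [E]
    have h1 : N ^ 2 ≤ M ^ 2 := Nat.pow_le_pow_left h 2
    have h2 : N ^ 4 ≤ M ^ 4 := Nat.pow_le_pow_left h 4
    have := ih (N := 8 * N ^ 4) (M := 8 * M ^ 4) (by omega)
    omega

theorem E_succ_le (B N : ℕ) (hN : 1 ≤ N) : E B N ≤ E (B + 1) N := by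
  simp only [E]
  have h : N ≤ 8 * N ^ 4 := by
    have : N ≤ N ^ 4 := Nat.le_self_pow (by norm_num) N
    omega
  have := E_mono B h
  omega

theorem E_le (B : ℕ) : ∀ N : ℕ, 1 ≤ N → E B N ≤ (8 * N) ^ (4 ^ B) := by
  induction B with
  | zero => intro N _; simp [E]
  | succ B ih =>
    intro N hN
    simp only [E]
    have hN4 : 1 ≤ N ^ 4 := Nat.one_le_pow _ _ hN
    have h1 := ih (8 * N ^ 4) (by omega)
    have h2 : (8 * (8 * N ^ 4)) ^ (4 ^ B) * 64 ≤ (8 * N) ^ (4 ^ (B + 1)) := by
      have e : (8 * N) ^ (4 ^ (B + 1)) = (4096 * N ^ 4) ^ (4 ^ B) := by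
        rw [show 4096 * N ^ 4 = (8 * N) ^ 4 by ring, ← pow_mul, pow_succ']
      rw [e]
      have e2 : (4096 * N ^ 4) ^ (4 ^ B) = (8 * (8 * N ^ 4)) ^ (4 ^ B) * 64 ^ (4 ^ B) := by
        rw [← mul_pow]
        congr 1
        ring
      rw [e2]
      apply Nat.mul_le_mul_left
      exact Nat.le_self_pow (by positivity) 64
    have h3 : N ^ 2 ≤ (8 * (8 * N ^ 4)) ^ (4 ^ B) := by
      calc N ^ 2 ≤ N ^ 4 := Nat.pow_le_pow_right hN (by norm_num)
        _ ≤ 8 * (8 * N ^ 4) := by omega
        _ ≤ _ := Nat.le_self_pow (by positivity) _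
    omega

theorem wr_add (h f g : ℝ[X]) : wr h (f + g) = wr h f + wr h g := by
  unfold wr
  rw [derivative_add]
  ring

theorem wr_smul (h f : ℝ[X]) (c : ℝ) : wr h (C c * f) = C c * wr h f := by
  unfold wr
  simp only [derivative_mul, derivative_C, zero_mul, zero_add]
  ring

theorem wr_sum {ι : Type*} (s : Finset ι) (h : ℝ[X]) (f : ι → ℝ[X]) :
    wr h (∑ i ∈ s, f i) = ∑ i ∈ s, wr h (f i) := by
  classical
  induction s using Finset.induction_on with
  | empty => simp [wr]
  | insert a s ha ih => rw [Finset.sum_insert ha, Finset.sum_insert ha, wr_add, ih]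

theorem wr_self (h : ℝ[X]) : wr h h = 0 := by
  unfold wr
  ring

/-- `U` is a linear combination of the `f b`. -/
def InSp {B : ℕ} (f : Fin B → ℝ[X]) (U : ℝ[X]) : Prop := ∃ c : Fin B → ℝ, U = ∑ b, C (c b) * f b

theorem lemmaM (B : ℕ) : ∀ (N : ℕ) (_ : 1 ≤ N) (f : Fin B → ℝ[X]) (U : ℝ[X]),
    (∀ b, IsType N (f b)) → IsType N U → ¬ InSp f U → ∀ c : Fin B → ℝ,
    od (U + ∑ b, C (c b) * f b) ≤ od U + E B N := by
  induction B with
  | zero =>
    intro N _ f U _ _ _ c
    simp [E]
  | succ B ih =>
    intro N hN f U hf hU hsp c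
    set h : ℝ[X] := f (Fin.last B) with hh
    set f' : Fin B → ℝ[X] := fun b => f b.castSucc with hf'
    by_cases h0 : h = 0
    · have hsp' : ¬ InSp f' U := by
        rintro ⟨d, hd⟩
        refine hsp ⟨Fin.snoc d 0, ?_⟩
        rw [Fin.sum_univ_castSucc]
        simp [hd, hf']
      have h1 := ih N hN f' U (fun b => hf _) hU hsp' (fun b => c b.castSucc)
      rw [Fin.sum_univ_castSucc, ← hh, h0, mul_zero, add_zero]
      exact h1.trans (Nat.add_le_add_left (E_succ_le B N hN) _)
    · have hspW : ¬ InSp (fun b => wr h (f' b)) (wr h U) := by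
        rintro ⟨d, hd⟩
        have h1 : wr h (U + ∑ b, C (-d b) * f' b) = 0 := by
          rw [wr_add, wr_sum, hd, ← Finset.sum_add_distrib]
          apply Finset.sum_eq_zero
          intro b _
          rw [wr_smul]
          simp
        obtain ⟨e, he⟩ := proportional h0 h1
        refine hsp ⟨Fin.snoc d e, ?_⟩
        rw [Fin.sum_univ_castSucc]
        simp only [Fin.snoc_castSucc, Fin.snoc_last]
        rw [← hh, ← he]
        have : ∀ b, C (-d b) * f' b = - (C (d b) * f b.castSucc) := by
          intro b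
          simp [hf']
        simp only [this, Finset.sum_neg_distrib]
        ring
      have hWU : wr h U ≠ 0 := by
        intro h1
        exact hspW ⟨fun _ => 0, by simp [h1]⟩
      have hU0 : U ≠ 0 := by
        rintro rfl
        exact hWU (by simp [wr])
      set F : ℝ[X] := U + ∑ b, C (c b) * f b with hF
      have hWF : wr h F = wr h U + ∑ b : Fin B, C (c b.castSucc) * wr h (f' b) := by
        rw [hF, wr_add, wr_sum, Fin.sum_univ_castSucc]
        simp only [wr_smul, ← hh, wr_self, mul_zero, add_zero, hf']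
      have hWF0 : wr h F ≠ 0 := by
        intro h1
        apply hspW
        refine ⟨fun b => - c b.castSucc, ?_⟩
        rw [hWF] at h1
        have : ∀ b : Fin B, C (- c b.castSucc) * wr h (f' b)
            = - (C (c b.castSucc) * wr h (f' b)) := by
          intro b; simp
        simp only [this, Finset.sum_neg_distrib]
        linear_combination h1
      have hF0 : F ≠ 0 := by
        rintro h1
        exact hWF0 (by rw [h1]; simp [wr])
      have h8 : 1 ≤ 8 * N ^ 4 := by
        have : 1 ≤ N ^ 4 := Nat.one_le_pow _ _ hN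
        omega
      have hIH := ih (8 * N ^ 4) h8 (fun b => wr h (f' b)) (wr h U)
        (fun b => IsType.wr hN (hf _) (hf _)) (IsType.wr hN hU (hf _)) hspW (fun b => c b.castSucc)
      rw [← hWF] at hIH
      -- the order of `wr h U`
      have hUo : od (wr h U) + 1 ≤ od U + od h + 2 * N ^ 2 := by
        obtain ⟨Rf, Sf, hSf, hRf', hSf', ef⟩ := hU
        obtain ⟨Rh, Sh, hSh, hRh', hSh', eh⟩ := hf (Fin.last B)
        rw [← hh] at eh
        have key : (Sf * Sh) * wr h U = (Rf * Sh - Rh * Sf) * (U * h) := by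
          rw [wr]
          linear_combination Sh * h * ef - Sf * U * eh
        have hP0 : Sf * Sh ≠ 0 := mul_ne_zero hSf hSh
        have hn0 : Rf * Sh - Rh * Sf ≠ 0 := by
          intro h1
          rw [h1, zero_mul] at key
          exact (mul_ne_zero hP0 hWU) key
        have h1 := congrArg od key
        rw [od_mul hP0 hWU, od_mul hn0 (mul_ne_zero hU0 h0), od_mul hU0 h0] at h1
        have cn : (Rf * Sh - Rh * Sf).support.card ≤ 2 * N ^ 2 := by
          refine (card_sub _ _).trans ?_
          have h1 := card_mul hRf' hSh'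
          have h2 := card_mul hRh' hSf'
          nlinarith
        have h2 := od_lt hn0 cn
        omega
      by_cases hFo : od F = 0
      · omega
      obtain ⟨r, hr⟩ : ∃ r, od F = r + 1 := Nat.exists_eq_succ_of_ne_zero hFo
      have hdF : (X - C 1) ^ (r + 1) ∣ F := pow_dvd_of_le (le_of_eq hr.symm)
      have hdh : (X - C 1) ^ (od h) ∣ h := pow_dvd_of_le le_rfl
      have hWo : r + od h ≤ od (wr h F) := by
        apply le_od hWF0
        unfold wr
        refine dvd_sub ?_ ?_
        · rw [pow_add]
          exact mul_dvd_mul (dvd_derivative hdF) hdh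
        · rcases Nat.eq_zero_or_pos (od h) with h1 | h1
          · rw [h1, add_zero]
            exact Dvd.dvd.mul_right ((pow_dvd_pow _ (Nat.le_succ r)).trans hdF) _
          · obtain ⟨s, hs⟩ : ∃ s, od h = s + 1 := Nat.exists_eq_succ_of_ne_zero (by omega)
            have h2 : (X - C 1) ^ (s + 1) ∣ h := hs ▸ hdh
            rw [hs, show r + (s + 1) = (r + 1) + s by ring, pow_add]
            exact mul_dvd_mul hdF (dvd_derivative h2)
      simp only [E]
      omega

end H667R4
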