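import Pool.Agent.H667R4.A2
import Mathlib.LinearAlgebra.FiniteDimensional.Lemmas

namespace H667R4

open Polynomial

/-- A refined form of `IsType`. -/
def HasLD (n d : ℕ) (f : ℝ[X]) : Prop :=
  ∃ R S : ℝ[X], S ≠ 0 ∧ R.support.card ≤ n * 2 ^ n ∧ S.support.card ≤ 2 ^ n ∧
    R.natDegree ≤ d ∧ S.natDegree ≤ d ∧ S * derivative f = R * f

theorem HasLD.one : HasLD 0 0 1 :=
  ⟨0, 1, one_ne_zero, by simp, by
    have : (1 : ℝ[X]).support = {0} := by
      rw [← C_1, support_C one_ne_zero]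
    rw [this]; simp, by simp, by simp, by simp⟩

theorem pow_ld (q : ℝ[X]) (a : ℕ) : q * derivative (q ^ a) = C (a : ℝ) * derivative q * q ^ a := by
  cases a with
  | zero => simp
  | succ a =>
    rw [derivative_pow]
    simp only [Nat.cast_add, Nat.cast_one, Nat.add_sub_cancel]
    ring

theorem one_sub_X_pow_ne {k : ℕ} (hk : 1 ≤ k) : (1 - X ^ k : ℝ[X]) ≠ 0 := by
  intro h
  have := congrArg (fun P : ℝ[X] => P.eval 2) h
  simp only [eval_sub, eval_one, eval_pow, eval_X, eval_zero] at this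
  have h2 : (1 : ℝ) < 2 ^ k := one_lt_pow₀ (by norm_num) (by omega)
  linarith

theorem one_add_X_pow_ne (k : ℕ) : (1 + X ^ k : ℝ[X]) ≠ 0 := by
  intro h
  have := congrArg (fun P : ℝ[X] => P.eval 2) h
  simp only [eval_add, eval_one, eval_pow, eval_X, eval_zero] at this
  have h2 : (0 : ℝ) < 2 ^ k := by positivity
  linarith

theorem HasLD.mul {n d : ℕ} {f : ℝ[X]} (hf : HasLD n d f) {k : ℕ} (hk : 1 ≤ k) (a b : ℕ) :
    HasLD (n + 1) (d + 2 * k) (f * ((1 + X ^ k) ^ a * (1 - X ^ k) ^ b)) := by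
  obtain ⟨R, S, hS, cR, cS, dR, dS, e⟩ := hf
  set Sk : ℝ[X] := 1 - X ^ (2 * k) with hSk
  set Rk : ℝ[X] := C ((k : ℝ) * (a - b)) * X ^ (k - 1) - C ((k : ℝ) * (a + b)) * X ^ (2 * k - 1)
    with hRk
  have hSk0 : Sk ≠ 0 := one_sub_X_pow_ne (by omega)
  have cSk : Sk.support.card ≤ 2 := by
    rw [hSk]
    refine (card_sub _ _).trans ?_
    have h1 : (1 : ℝ[X]).support.card ≤ 1 := by
      have := card_support_C_mul_X_pow_le_one (c := (1 : ℝ)) (n := 0)
      simpa using this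
    have h2 : (X ^ (2 * k) : ℝ[X]).support.card ≤ 1 := by
      have := card_support_C_mul_X_pow_le_one (c := (1 : ℝ)) (n := 2 * k)
      simpa using this
    omega
  have cRk : Rk.support.card ≤ 2 := by
    rw [hRk]
    refine (card_sub _ _).trans ?_
    have h1 := card_support_C_mul_X_pow_le_one (c := (k : ℝ) * (a - b)) (n := k - 1)
    have h2 := card_support_C_mul_X_pow_le_one (c := (k : ℝ) * (a + b)) (n := 2 * k - 1)
    omega
  have dSk : Sk.natDegree ≤ 2 * k := by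
    rw [hSk]
    refine (natDegree_sub_le _ _).trans ?_
    simp
  have dRk : Rk.natDegree ≤ 2 * k := by
    rw [hRk]
    refine (natDegree_sub_le _ _).trans (max_le ?_ ?_)
    · exact (natDegree_C_mul_X_pow_le _ _).trans (by omega)
    · exact (natDegree_C_mul_X_pow_le _ _).trans (by omega)
  refine ⟨R * Sk + Rk * S, S * Sk, mul_ne_zero hS hSk0, ?_, ?_, ?_, ?_, ?_⟩
  · refine (card_add _ _).trans ?_
    have h1 := card_mul cR cSk
    have h2 := card_mul cRk cS
    calc _ ≤ n * 2 ^ n * 2 + 2 * 2 ^ n := by omega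
      _ = (n + 1) * 2 ^ (n + 1) := by ring
  · have h1 := card_mul cS cSk
    rw [pow_succ]
    exact h1
  · refine (natDegree_add_le _ _).trans (max_le ?_ ?_)
    · exact natDegree_mul_le.trans (by omega)
    · exact natDegree_mul_le.trans (by omega)
  · exact natDegree_mul_le.trans (by omega)
  · have h1 : Sk = (1 + X ^ k) * (1 - X ^ k) := by
      rw [hSk]; ring
    have h2 : Rk = C (a : ℝ) * (C (k : ℝ) * X ^ (k - 1)) * (1 - X ^ k)
        - C (b : ℝ) * (C (k : ℝ) * X ^ (k - 1)) * (1 + X ^ k) := by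
      rw [hRk, show 2 * k - 1 = (k - 1) + k by omega, pow_add]
      simp only [C_mul, C_sub, C_add]
      ring
    have e1 := pow_ld (1 + X ^ k) a
    have e2 := pow_ld (1 - X ^ k) b
    have d1 : derivative (1 + X ^ k : ℝ[X]) = C (k : ℝ) * X ^ (k - 1) := by
      simp [derivative_X_pow]
    have d2 : derivative (1 - X ^ k : ℝ[X]) = - (C (k : ℝ) * X ^ (k - 1)) := by
      simp [derivative_X_pow]
    rw [d1] at e1
    rw [d2] at e2
    rw [derivative_mul, derivative_mul, h1, h2]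
    linear_combination ((1 + X ^ k) * (1 - X ^ k)) * ((1 + X ^ k) ^ a * (1 - X ^ k) ^ b) * e
      + S * f * (1 - X ^ k) * (1 - X ^ k) ^ b * e1 + S * f * (1 + X ^ k) * (1 + X ^ k) ^ a * e2

theorem HasLD.isType {n d N : ℕ} {f : ℝ[X]} (hf : HasLD n d f)
    (hN : (1 ≤ n ∧ n * 2 ^ n ≤ N) ∨ d + 1 ≤ N) : IsType N f := by
  obtain ⟨R, S, hS, cR, cS, dR, dS, e⟩ := hf
  refine ⟨R, S, hS, ?_, ?_, e⟩
  · rcases hN with h | h
    · exact cR.trans h.2
    · exact (card_supp_le_succ_natDegree R).trans (by omega)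
  · rcases hN with h | h
    · refine cS.trans (le_trans ?_ h.2)
      exact Nat.le_mul_of_pos_left _ h.1
    · exact (card_supp_le_succ_natDegree S).trans (by omega)

theorem HasLD.prod (K : Finset ℕ) (hK : ∀ k ∈ K, 1 ≤ k) (a b : ℕ → ℕ) :
    HasLD K.card (2 * ∑ k ∈ K, k) (∏ k ∈ K, (1 + X ^ k) ^ (a k) * (1 - X ^ k) ^ (b k)) := by
  induction K using Finset.induction_on with
  | empty => simpa using HasLD.one
  | insert k K hk ih =>
    rw [Finset.prod_insert hk, Finset.sum_insert hk, Finset.card_insert_of_notMem hk]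
    have h1 := (ih (fun k hk' => hK k (Finset.mem_insert_of_mem hk'))).mul
      (hK k (Finset.mem_insert_self _ _)) (a k) (b k)
    rw [mul_comm (∏ k ∈ K, _)] at h1
    rw [show 2 * (k + ∑ k ∈ K, k) = 2 * ∑ k ∈ K, k + 2 * k by ring]
    exact h1

theorem od_one_sub_pow (s : ℕ) : od ((1 - X : ℝ[X]) ^ s) = s := by
  have h : (1 - X : ℝ[X]) ^ s = C ((-1) ^ s) * (X - C 1) ^ s := by
    rw [C_pow, ← mul_pow]
    congr 1
    simp
  rw [h, od_mul (by simp) (pow_ne_zero _ (X_sub_C_ne_zero 1))]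
  unfold od
  rw [rootMultiplicity_C, rootMultiplicity_X_sub_C_pow, zero_add]

theorem od_one_add_pow (s : ℕ) : od ((1 + X : ℝ[X]) ^ s) = 0 := by
  unfold od
  rw [rootMultiplicity_eq_zero]
  simp only [IsRoot, eval_pow, eval_add, eval_one, eval_X]
  positivity

theorem InSp.add {B : ℕ} {f : Fin B → ℝ[X]} {U V : ℝ[X]} (hU : InSp f U) (hV : InSp f V) :
    InSp f (U + V) := by
  obtain ⟨c, rfl⟩ := hU
  obtain ⟨d, rfl⟩ := hV
  refine ⟨fun b => c b + d b, ?_⟩
  rw [← Finset.sum_add_distrib]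
  exact Finset.sum_congr rfl (fun b _ => by rw [C_add]; ring)

theorem InSp.smul {B : ℕ} {f : Fin B → ℝ[X]} {U : ℝ[X]} (hU : InSp f U) (a : ℝ) :
    InSp f (C a * U) := by
  obtain ⟨c, rfl⟩ := hU
  refine ⟨fun b => a * c b, ?_⟩
  rw [Finset.mul_sum]
  exact Finset.sum_congr rfl (fun b _ => by rw [C_mul]; ring)

theorem InSp.zero {B : ℕ} {f : Fin B → ℝ[X]} : InSp f 0 := ⟨fun _ => 0, by simp⟩

theorem InSp.sum {B : ℕ} {f : Fin B → ℝ[X]} {ι : Type*} (s : Finset ι) (g : ι → ℝ[X])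
    (h : ∀ i ∈ s, InSp f (g i)) : InSp f (∑ i ∈ s, g i) := by
  classical
  induction s using Finset.induction_on with
  | empty => simpa using InSp.zero
  | insert a s ha ih =>
    rw [Finset.sum_insert ha]
    exact (h a (Finset.mem_insert_self _ _)).add
      (ih (fun i hi => h i (Finset.mem_insert_of_mem hi)))

/-- The numbers `i (p - i)`. -/
def sv (p i : ℕ) : ℕ := i * (p - i)

theorem sv_symm {p i : ℕ} (h : i ≤ p) : sv p (p - i) = sv p i := by
  unfold sv
  rw [Nat.sub_sub_self h, mul_comm]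

/-- For `j < i < p - j`. -/
theorem sv_gap {p i j : ℕ} (h1 : j < i) (h2 : i + j < p) : sv p j + (p - 2 * j - 1) ≤ sv p i := by
  unfold sv
  obtain ⟨a, rfl⟩ : ∃ a, i = j + 1 + a := ⟨i - j - 1, by omega⟩
  obtain ⟨b, rfl⟩ : ∃ b, p = (j + 1 + a) + j + 1 + b := ⟨p - (j + 1 + a) - j - 1, by omega⟩
  have e1 : j + 1 + a + j + 1 + b - j = j + a + b + 2 := by omega
  have e2 : j + 1 + a + j + 1 + b - 2 * j - 1 = a + b + 1 := by omega
  have e3 : j + 1 + a + j + 1 + b - (j + 1 + a) = j + b + 1 := by omega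
  rw [e1, e2, e3]
  nlinarith [Nat.zero_le (a * b), Nat.zero_le (a * j), Nat.zero_le (b * j)]

theorem sv_ge {p i j : ℕ} (h1 : j ≤ i) (h2 : i + j ≤ p) : sv p j ≤ sv p i := by
  unfold sv
  obtain ⟨a, rfl⟩ : ∃ a, i = j + a := ⟨i - j, by omega⟩
  obtain ⟨b, rfl⟩ : ∃ b, p = (j + a) + j + b := ⟨p - (j + a) - j, by omega⟩
  have e1 : j + a + j + b - j = j + a + b := by omega
  have e3 : j + a + j + b - (j + a) = j + b := by omega
  rw [e1, e3]
  nlinarith [Nat.zero_le (a * b), Nat.zero_le (a * j), Nat.zero_le (b * j)]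

end H667R4
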