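import Pool.Agent.H667R4.A3

namespace H667R4

open Polynomial

/-- The shifted building blocks. -/
noncomputable def Us (M0 : ℝ[X]) (D s : ℕ) : ℝ[X] := M0 * ((1 + X) ^ (D - s) * (1 - X) ^ s)

theorem Us_ne (M0 : ℝ[X]) (hM : M0 ≠ 0) (D s : ℕ) : Us M0 D s ≠ 0 := by
  unfold Us
  have h1 : (1 + X : ℝ[X]) ≠ 0 := by simpa using one_add_X_pow_ne 1
  have h2 : (1 - X : ℝ[X]) ≠ 0 := by simpa using one_sub_X_pow_ne (le_refl 1)
  exact mul_ne_zero hM (mul_ne_zero (pow_ne_zero _ h1) (pow_ne_zero _ h2))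

theorem od_Us (M0 : ℝ[X]) (hM : M0 ≠ 0) (D s : ℕ) : od (Us M0 D s) = od M0 + s := by
  unfold Us
  have h1 : (1 + X : ℝ[X]) ≠ 0 := by simpa using one_add_X_pow_ne 1
  have h2 : (1 - X : ℝ[X]) ≠ 0 := by simpa using one_sub_X_pow_ne (le_refl 1)
  rw [od_mul hM (mul_ne_zero (pow_ne_zero _ h1) (pow_ne_zero _ h2)),
    od_mul (pow_ne_zero _ h1) (pow_ne_zero _ h2), od_one_add_pow, od_one_sub_pow, zero_add]

theorem dvd_Us (M0 : ℝ[X]) (hM : M0 ≠ 0) (D s n : ℕ) (h : n ≤ od M0 + s) :
    (X - C 1) ^ n ∣ Us M0 D s :=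
  pow_dvd_of_le (by rw [od_Us M0 hM]; exact h)

theorem step {p B N : ℕ} (hN : 1 ≤ N) (hp : E B N + 2 * B + 1 < p) (T : Fin B → ℝ[X])
    (hT : ∀ b, IsType N (T b)) (M0 : ℝ[X]) (hM : M0 ≠ 0) (D : ℕ)
    (hU : ∀ s, IsType N (Us M0 D s)) (w : ℕ → ℝ) (hw : ∀ i ≤ p, 0 < w i)
    (h : InSp T (∑ i ∈ Finset.range (p + 1), C (w i) * Us M0 D (sv p i))) (j : ℕ) :
    j ≤ B → InSp T (Us M0 D (sv p j)) := by
  induction j using Nat.strong_induction_on with
  | _ j ih =>
    intro hj
    by_contra hnot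
    set S := Finset.range (p + 1) with hS
    set A := S.filter (fun i => sv p i < sv p j) with hA
    set A' := S.filter (fun i => ¬ sv p i < sv p j) with hA'
    have hsplit : ∑ i ∈ S, C (w i) * Us M0 D (sv p i) =
        ∑ i ∈ A, C (w i) * Us M0 D (sv p i) + ∑ i ∈ A', C (w i) * Us M0 D (sv p i) :=
      (Finset.sum_filter_add_sum_filter_not _ _ _).symm
    have hAin : InSp T (∑ i ∈ A, C (w i) * Us M0 D (sv p i)) := by
      apply InSp.sum
      intro i hi
      rw [hA, Finset.mem_filter, hS, Finset.mem_range] at hi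
      obtain ⟨hi1, hi2⟩ := hi
      apply InSp.smul
      by_cases h1 : i < j
      · exact ih i h1 (by omega)
      · by_cases h2 : p - i < j
        · rw [← sv_symm (show i ≤ p by omega)]
          exact ih _ h2 (by omega)
        · exfalso
          have := sv_ge (p := p) (i := i) (j := j) (by omega) (by omega)
          omega
    have hA'in : InSp T (∑ i ∈ A', C (w i) * Us M0 D (sv p i)) := by
      have h1 := h.add (hAin.smul (-1))
      rw [hsplit] at h1
      have h2 : ∑ i ∈ A, C (w i) * Us M0 D (sv p i) + ∑ i ∈ A', C (w i) * Us M0 D (sv p i) +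
          C (-1) * ∑ i ∈ A, C (w i) * Us M0 D (sv p i) = ∑ i ∈ A', C (w i) * Us M0 D (sv p i) := by
        rw [C_neg, C_1]; ring
      rwa [h2] at h1
    set Q := A'.filter (fun i => sv p i = sv p j) with hQ
    set Q' := A'.filter (fun i => ¬ sv p i = sv p j) with hQ'
    have hsplit2 : ∑ i ∈ A', C (w i) * Us M0 D (sv p i) =
        ∑ i ∈ Q, C (w i) * Us M0 D (sv p i) + ∑ i ∈ Q', C (w i) * Us M0 D (sv p i) :=
      (Finset.sum_filter_add_sum_filter_not _ _ _).symm
    set W : ℝ := ∑ i ∈ Q, w i with hW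
    have hjQ : j ∈ Q := by
      rw [hQ, Finset.mem_filter, hA', Finset.mem_filter, hS, Finset.mem_range]
      exact ⟨⟨by omega, lt_irrefl _⟩, rfl⟩
    have hWpos : 0 < W := by
      rw [hW]
      apply Finset.sum_pos
      · intro i hi
        rw [hQ, Finset.mem_filter, hA', Finset.mem_filter, hS, Finset.mem_range] at hi
        exact hw i (by omega)
      · exact ⟨j, hjQ⟩
    have hQsum : ∑ i ∈ Q, C (w i) * Us M0 D (sv p i) = C W * Us M0 D (sv p j) := by
      rw [hW, map_sum, Finset.sum_mul]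
      apply Finset.sum_congr rfl
      intro i hi
      rw [hQ, Finset.mem_filter] at hi
      rw [hi.2]
    set H : ℝ[X] := ∑ i ∈ Q', C (w i) * Us M0 D (sv p i) with hH
    have hdvd : (X - C 1) ^ (od M0 + (sv p j + (p - 2 * j - 1))) ∣ H := by
      rw [hH]
      apply Finset.dvd_sum
      intro i hi
      rw [hQ', Finset.mem_filter, hA', Finset.mem_filter, hS, Finset.mem_range] at hi
      obtain ⟨⟨hi1, hi2⟩, hi3⟩ := hi
      apply Dvd.dvd.mul_left
      apply dvd_Us M0 hM
      have hgt : sv p j < sv p i := by omega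
      have hlt1 : j < i := by
        by_contra hc
        have := sv_ge (p := p) (i := j) (j := i) (by omega) (by omega)
        omega
      have hlt2 : i + j < p := by
        by_contra hc
        have := sv_ge (p := p) (i := j) (j := p - i) (by omega) (by omega)
        rw [sv_symm (show i ≤ p by omega)] at this
        omega
      have := sv_gap hlt1 hlt2
      omega
    obtain ⟨d, hd⟩ := hA'in
    have hG : ∑ b, C (d b) * T b = C W * Us M0 D (sv p j) + H := by
      rw [← hd, hsplit2, hQsum]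
    set F : ℝ[X] := Us M0 D (sv p j) + ∑ b, C (- (d b / W)) * T b with hF
    have hFH : F = C (- (1 / W)) * H := by
      have h1 : ∑ b, C (- (d b / W)) * T b = C (-(1 / W)) * ∑ b, C (d b) * T b := by
        rw [Finset.mul_sum]
        apply Finset.sum_congr rfl
        intro b _
        rw [← mul_assoc, ← C_mul]
        congr 2
        ring
      rw [hF, h1, hG, mul_add, ← mul_assoc, ← C_mul]
      have h2 : -(1 / W) * W = -1 := by field_simp
      rw [h2, C_neg, C_1]
      ring
    have hF0 : F ≠ 0 := by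
      intro h1
      apply hnot
      refine ⟨fun b => d b / W, ?_⟩
      have h2 : ∑ b, C (- (d b / W)) * T b = - ∑ b, C (d b / W) * T b := by
        rw [← Finset.sum_neg_distrib]
        exact Finset.sum_congr rfl (fun b _ => by rw [C_neg]; ring)
      rw [hF, h2] at h1
      linear_combination h1
    have h3 : od M0 + (sv p j + (p - 2 * j - 1)) ≤ od F := by
      apply le_od hF0
      rw [hFH]
      exact Dvd.dvd.mul_left hdvd _
    have h4 := lemmaM B N hN T (Us M0 D (sv p j)) hT (hU _) hnot (fun b => - (d b / W))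
    rw [← hF, od_Us M0 hM] at h4
    omega

theorem sv_strict {p j i : ℕ} (h : j < i) (h2 : 2 * i < p) : sv p j < sv p i := by
  have := sv_gap (p := p) h (by omega)
  omega

theorem assembly {p B N : ℕ} (hN : 1 ≤ N) (hp : E B N + 2 * B + 1 < p) (T : Fin B → ℝ[X])
    (hT : ∀ b, IsType N (T b)) (M0 : ℝ[X]) (hM : M0 ≠ 0) (D : ℕ)
    (hU : ∀ s, IsType N (Us M0 D s)) (w : ℕ → ℝ) (hw : ∀ i ≤ p, 0 < w i)
    (h : InSp T (∑ i ∈ Finset.range (p + 1), C (w i) * Us M0 D (sv p i))) : False := by
  have hall : ∀ j : Fin (B + 1), InSp T (Us M0 D (sv p j)) := fun j =>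
    step hN hp T hT M0 hM D hU w hw h j (by omega)
  choose c hc using hall
  -- a linear relation
  let φ : (Fin (B + 1) → ℝ) →ₗ[ℝ] (Fin B → ℝ) :=
    { toFun := fun l b => ∑ j, l j * c j b
      map_add' := by
        intro l m
        funext b
        simp only [Pi.add_apply, add_mul, Finset.sum_add_distrib]
      map_smul' := by
        intro a l
        funext b
        simp only [Pi.smul_apply, smul_eq_mul, RingHom.id_apply, Finset.mul_sum, mul_assoc] }
  have hker : LinearMap.ker φ ≠ ⊥ := by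
    apply LinearMap.ker_ne_bot_of_finrank_lt
    simp
  obtain ⟨l, hl, hl0⟩ := (Submodule.ne_bot_iff _).1 hker
  have hl' : ∀ b, ∑ j, l j * c j b = 0 := by
    intro b
    have := congrFun (LinearMap.mem_ker.1 hl) b
    simpa [φ] using this
  have hrel : ∑ j : Fin (B + 1), C (l j) * Us M0 D (sv p j) = 0 := by
    have h1 : ∀ j : Fin (B + 1), C (l j) * Us M0 D (sv p j) =
        ∑ b, C (l j * c j b) * T b := by
      intro j
      rw [hc j, Finset.mul_sum]
      exact Finset.sum_congr rfl (fun b _ => by rw [C_mul]; ring)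
    simp only [h1]
    rw [Finset.sum_comm]
    apply Finset.sum_eq_zero
    intro b _
    rw [← Finset.sum_mul, ← map_sum, hl' b, C_0, zero_mul]
  obtain ⟨j0, hj0⟩ : ∃ j0, l j0 ≠ 0 ∧ ∀ j < j0, l j = 0 := by
    have hne : (Finset.univ.filter (fun j => l j ≠ 0)).Nonempty := by
      obtain ⟨j, hj⟩ := Function.ne_iff.1 hl0
      exact ⟨j, by simpa using hj⟩
    refine ⟨(Finset.univ.filter (fun j => l j ≠ 0)).min' hne, ?_, ?_⟩
    · have := Finset.min'_mem _ hne
      simpa using this
    · intro j hj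
      by_contra hc'
      have := Finset.min'_le (Finset.univ.filter (fun j => l j ≠ 0)) j (by simpa using hc')
      exact absurd hj (not_lt.2 this)
  have h2 : (X - C 1) ^ (od M0 + (sv p j0 + 1)) ∣ C (l j0) * Us M0 D (sv p j0) := by
    have h3 : C (l j0) * Us M0 D (sv p j0) =
        - ∑ j ∈ Finset.univ.erase j0, C (l j) * Us M0 D (sv p j) := by
      rw [← Finset.add_sum_erase _ _ (Finset.mem_univ j0)] at hrel
      linear_combination hrel
    rw [h3, dvd_neg]
    apply Finset.dvd_sum
    intro j hj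
    have hjne : j ≠ j0 := (Finset.mem_erase.1 hj).1
    rcases lt_or_gt_of_ne hjne with h4 | h4
    · rw [hj0.2 j h4]
      simp
    · apply Dvd.dvd.mul_left
      apply dvd_Us M0 hM
      have h5 : sv p j0 < sv p j := sv_strict h4 (by have := j.2; omega)
      omega
  have h6 : C (l j0) * Us M0 D (sv p j0) ≠ 0 :=
    mul_ne_zero (C_ne_zero.2 hj0.1) (Us_ne M0 hM D _)
  have h7 := le_od h6 h2
  rw [od_mul (C_ne_zero.2 hj0.1) (Us_ne M0 hM D _), od_Us M0 hM] at h7
  have h8 : od (C (l j0)) = 0 := by unfold od; exact rootMultiplicity_C _ _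
  omega

end H667R4
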