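import Mathlib.Combinatorics.SimpleGraph.Finite
import Mathlib.Combinatorics.SimpleGraph.Maps
import Mathlib.Data.Sym.Card
import Mathlib.Data.Nat.Choose.Sum
import Mathlib.Data.Set.Card
import Mathlib.Data.Real.Basic
import Mathlib.Algebra.BigOperators.Ring.Finset
import Mathlib.Tactic

namespace H667R4

/-- A graph is even if every vertex has even degree. -/
def IsEvenGraph {p : ℕ} (G : SimpleGraph (Fin p)) : Prop := ∀ v, Even (G.neighborSet v).ncard

open Classical in
/-- `W_α(x) = ∑_G x ^ |E(G)|`, over all even graphs `G` on `Fin p` with `α(G) = G`. -/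
noncomputable def W {p : ℕ} (α : Equiv.Perm (Fin p)) (x : ℝ) : ℝ :=
  ∑ G : SimpleGraph (Fin p) with (IsEvenGraph G ∧ G.map α = G), x ^ G.edgeSet.ncard

open Classical in
theorem W_one_eq {p : ℕ} (x : ℝ) :
    W (1 : Equiv.Perm (Fin p)) x =
      ∑ G : SimpleGraph (Fin p) with IsEvenGraph G, x ^ G.edgeSet.ncard := by
  unfold W
  congr 1
  ext G
  simp only [Finset.mem_filter, Finset.mem_univ, true_and]
  constructor
  · exact fun h => h.1
  · intro h
    refine ⟨h, ?_⟩
    exact SimpleGraph.map_id G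

/-- The pairs. -/
def pairs (p : ℕ) : Finset (Sym2 (Fin p)) := Finset.univ.filter (fun e => ¬ e.IsDiag)

open Classical in
/-- The finite set of edges. -/
noncomputable def eset {p : ℕ} (G : SimpleGraph (Fin p)) : Finset (Sym2 (Fin p)) :=
  Finset.univ.filter (fun e => e ∈ G.edgeSet)

theorem mem_eset {p : ℕ} (G : SimpleGraph (Fin p)) (e : Sym2 (Fin p)) :
    e ∈ eset G ↔ e ∈ G.edgeSet := by
  simp [eset]

open Classical in
theorem ncard_neighborSet {p : ℕ} (G : SimpleGraph (Fin p)) (v : Fin p) :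
    (G.neighborSet v).ncard = ((eset G).filter (fun e => v ∈ e)).card := by
  have h : eset G = G.edgeFinset := by
    ext e
    rw [mem_eset, SimpleGraph.mem_edgeFinset]
  rw [h, ← SimpleGraph.incidenceFinset_eq_filter, SimpleGraph.card_incidenceFinset_eq_degree,
    ← SimpleGraph.card_neighborSet_eq_degree, Set.ncard_eq_toFinset_card', Set.toFinset_card]

theorem eset_from {p : ℕ} (S : Finset (Sym2 (Fin p))) (hS : S ⊆ pairs p) :
    eset (SimpleGraph.fromEdgeSet (S : Set (Sym2 (Fin p)))) = S := by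
  ext e
  rw [mem_eset, SimpleGraph.edgeSet_fromEdgeSet]
  simp only [Set.mem_sdiff, Finset.mem_coe, Sym2.mem_diagSet]
  constructor
  · exact fun h => h.1
  · intro h
    exact ⟨h, (Finset.mem_filter.1 (hS h)).2⟩

theorem from_eset {p : ℕ} (G : SimpleGraph (Fin p)) :
    SimpleGraph.fromEdgeSet ((eset G : Finset (Sym2 (Fin p))) : Set (Sym2 (Fin p))) = G := by
  have h : ((eset G : Finset (Sym2 (Fin p))) : Set (Sym2 (Fin p))) = G.edgeSet := by
    ext e
    rw [Finset.mem_coe, mem_eset]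
  rw [h, SimpleGraph.fromEdgeSet_edgeSet]

theorem card_eset {p : ℕ} (G : SimpleGraph (Fin p)) : G.edgeSet.ncard = (eset G).card := by
  have h : ((eset G : Finset (Sym2 (Fin p))) : Set (Sym2 (Fin p))) = G.edgeSet := by
    ext e
    rw [Finset.mem_coe, mem_eset]
  rw [← h, Set.ncard_coe_finset]

open Classical in
theorem W_one_eq2 {p : ℕ} (x : ℝ) :
    W (1 : Equiv.Perm (Fin p)) x =
      ∑ S ∈ (pairs p).powerset with (∀ v, Even (S.filter (fun e => v ∈ e)).card), x ^ S.card := by
  rw [W_one_eq]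
  refine Finset.sum_bij' (fun G _ => eset G) (fun S _ => SimpleGraph.fromEdgeSet (S : Set (Sym2 (Fin p))))
    ?_ ?_ ?_ ?_ ?_
  · intro G hG
    rw [Finset.mem_filter] at hG
    rw [Finset.mem_filter, Finset.mem_powerset]
    refine ⟨?_, ?_⟩
    · intro e he
      rw [pairs, Finset.mem_filter]
      refine ⟨Finset.mem_univ _, ?_⟩
      exact G.not_isDiag_of_mem_edgeSet ((mem_eset G e).1 he)
    · intro v
      have h1 := hG.2 v
      rw [ncard_neighborSet] at h1
      convert h1
  · intro S hS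
    rw [Finset.mem_filter, Finset.mem_powerset] at hS
    rw [Finset.mem_filter]
    refine ⟨Finset.mem_univ _, ?_⟩
    intro v
    rw [ncard_neighborSet, eset_from S hS.1]
    have h1 := hS.2 v
    convert h1
  · intro G hG
    exact from_eset G
  · intro S hS
    rw [Finset.mem_filter, Finset.mem_powerset] at hS
    exact eset_from S hS.1
  · intro G hG
    rw [card_eset]

/-- The sign of a pair relative to a vertex set. -/
def chi {p : ℕ} (σ : Finset (Fin p)) (e : Sym2 (Fin p)) : ℝ :=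
  ∏ v ∈ σ, if v ∈ e then (-1 : ℝ) else 1

theorem indicator_eq {p : ℕ} (S : Finset (Sym2 (Fin p))) :
    (if (∀ v, Even (S.filter (fun e => v ∈ e)).card) then (1 : ℝ) else 0) =
      (1 / 2) ^ p * ∑ σ ∈ (Finset.univ : Finset (Fin p)).powerset, ∏ e ∈ S, chi σ e := by
  have h1 : ∀ σ : Finset (Fin p), ∏ e ∈ S, chi σ e =
      ∏ v ∈ σ, (-1 : ℝ) ^ (S.filter (fun e => v ∈ e)).card := by
    intro σ
    unfold chi
    rw [Finset.prod_comm]
    apply Finset.prod_congr rfl
    intro v _
    rw [Finset.prod_ite, Finset.prod_const, Finset.prod_const_one, mul_one]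
  simp only [h1]
  rw [← Finset.prod_one_add]
  have h2 : (1 / 2 : ℝ) ^ p = ∏ v : Fin p, (1 / 2 : ℝ) := by simp
  rw [h2, ← Finset.prod_mul_distrib]
  split_ifs with h
  · symm
    apply Finset.prod_eq_one
    intro v _
    rw [(h v).neg_one_pow]
    norm_num
  · push Not at h
    obtain ⟨v, hv⟩ := h
    symm
    apply Finset.prod_eq_zero (Finset.mem_univ v)
    rw [(Nat.not_even_iff_odd.1 hv).neg_one_pow]
    norm_num

open Classical in
theorem W_one_eq3 {p : ℕ} (x : ℝ) :
    W (1 : Equiv.Perm (Fin p)) x =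
      (1 / 2) ^ p * ∑ σ ∈ (Finset.univ : Finset (Fin p)).powerset,
        ∏ e ∈ pairs p, (1 + x * chi σ e) := by
  rw [W_one_eq2, Finset.sum_filter]
  have h1 : ∀ S ∈ (pairs p).powerset,
      (if (∀ v, Even (S.filter (fun e => v ∈ e)).card) then x ^ S.card else 0) =
      (1 / 2) ^ p * ∑ σ ∈ (Finset.univ : Finset (Fin p)).powerset, ∏ e ∈ S, (x * chi σ e) := by
    intro S _
    have h2 : (if (∀ v, Even (S.filter (fun e => v ∈ e)).card) then x ^ S.card else 0) =
        (if (∀ v, Even (S.filter (fun e => v ∈ e)).card) then (1 : ℝ) else 0) * x ^ S.card := by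
      split_ifs <;> simp
    rw [h2, indicator_eq, mul_assoc, Finset.sum_mul]
    congr 1
    apply Finset.sum_congr rfl
    intro σ _
    rw [Finset.prod_mul_distrib, Finset.prod_const, mul_comm]
  rw [Finset.sum_congr rfl h1, ← Finset.mul_sum, Finset.sum_comm]
  congr 1
  apply Finset.sum_congr rfl
  intro σ _
  rw [Finset.prod_one_add]

/-- The cut. -/
def cut {p : ℕ} (σ : Finset (Fin p)) : Finset (Sym2 (Fin p)) :=
  (σ ×ˢ σᶜ).image (fun q => s(q.1, q.2))

theorem card_cut {p : ℕ} (σ : Finset (Fin p)) : (cut σ).card = σ.card * (p - σ.card) := by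
  unfold cut
  rw [Finset.card_image_of_injOn, Finset.card_product, Finset.card_compl, Fintype.card_fin]
  rintro ⟨a, b⟩ h1 ⟨c, d⟩ h2 h
  simp only [Finset.coe_product, Set.mem_prod, Finset.mem_coe, Finset.mem_compl] at h1 h2
  simp only [Sym2.eq_iff] at h
  rcases h with ⟨rfl, rfl⟩ | ⟨rfl, rfl⟩
  · rfl
  · exact absurd h1.1 h2.2

theorem chi_eq {p : ℕ} (σ : Finset (Fin p)) (e : Sym2 (Fin p)) (he : ¬ e.IsDiag) :
    chi σ e = if e ∈ cut σ then -1 else 1 := by
  induction e using Sym2.ind with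
  | _ a b =>
    have hab : a ≠ b := by simpa using he
    have h1 : chi σ s(a, b) = (if a ∈ σ then -1 else 1) * (if b ∈ σ then -1 else 1) := by
      unfold chi
      have h2 : ∀ v : Fin p, (if v ∈ s(a, b) then (-1 : ℝ) else 1) =
          (if v = a then -1 else 1) * (if v = b then -1 else 1) := by
        intro v
        simp only [Sym2.mem_iff]
        by_cases h3 : v = a
        · have h4 : v ≠ b := h3 ▸ hab
          simp [h3, hab]
        · by_cases h4 : v = b
          · simp [h4, hab.symm]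
          · simp [h3, h4]
      simp only [h2]
      rw [Finset.prod_mul_distrib, Finset.prod_ite_eq', Finset.prod_ite_eq']
    have h5 : s(a, b) ∈ cut σ ↔ (a ∈ σ ∧ b ∉ σ) ∨ (b ∈ σ ∧ a ∉ σ) := by
      unfold cut
      simp only [Finset.mem_image, Finset.mem_product, Finset.mem_compl, Prod.exists, Sym2.eq_iff]
      constructor
      · rintro ⟨c, d, ⟨hc, hd⟩, ⟨rfl, rfl⟩ | ⟨rfl, rfl⟩⟩
        · exact Or.inl ⟨hc, hd⟩
        · exact Or.inr ⟨hc, hd⟩
      · rintro (⟨h6, h7⟩ | ⟨h6, h7⟩)
        · exact ⟨a, b, ⟨h6, h7⟩, Or.inl ⟨rfl, rfl⟩⟩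
        · exact ⟨b, a, ⟨h6, h7⟩, Or.inr ⟨rfl, rfl⟩⟩
    rw [h1]
    by_cases h6 : a ∈ σ <;> by_cases h7 : b ∈ σ <;> simp [h5, h6, h7]

theorem cut_subset {p : ℕ} (σ : Finset (Fin p)) : cut σ ⊆ pairs p := by
  intro e he
  unfold cut at he
  simp only [Finset.mem_image, Finset.mem_product, Finset.mem_compl, Prod.exists] at he
  obtain ⟨c, d, ⟨hc, hd⟩, rfl⟩ := he
  rw [pairs, Finset.mem_filter]
  refine ⟨Finset.mem_univ _, ?_⟩
  simp only [Sym2.mk_isDiag_iff]
  rintro rfl
  exact hd hc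

theorem prod_chi {p : ℕ} (σ : Finset (Fin p)) (x : ℝ) :
    ∏ e ∈ pairs p, (1 + x * chi σ e) =
      (1 + x) ^ ((pairs p).card - σ.card * (p - σ.card)) * (1 - x) ^ (σ.card * (p - σ.card)) := by
  rw [← Finset.prod_sdiff (cut_subset σ)]
  have h1 : ∏ e ∈ pairs p \ cut σ, (1 + x * chi σ e) = ∏ e ∈ pairs p \ cut σ, (1 + x) := by
    apply Finset.prod_congr rfl
    intro e he
    rw [Finset.mem_sdiff, pairs, Finset.mem_filter] at he
    rw [chi_eq σ e he.1.2, if_neg he.2, mul_one]
  have h2 : ∏ e ∈ cut σ, (1 + x * chi σ e) = ∏ e ∈ cut σ, (1 - x) := by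
    apply Finset.prod_congr rfl
    intro e he
    have he' := cut_subset σ he
    rw [pairs, Finset.mem_filter] at he'
    rw [chi_eq σ e he'.2, if_pos he]
    ring
  rw [h1, h2, Finset.prod_const, Finset.prod_const, Finset.card_sdiff_of_subset (cut_subset σ),
    card_cut]

/-- The formula for the identity type. -/
theorem W_one_formula {p : ℕ} (x : ℝ) :
    W (1 : Equiv.Perm (Fin p)) x =
      ∑ i ∈ Finset.range (p + 1), ((1 / 2) ^ p * (p.choose i : ℝ)) *
        ((1 + x) ^ ((pairs p).card - i * (p - i)) * (1 - x) ^ (i * (p - i))) := by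
  rw [W_one_eq3]
  simp only [prod_chi]
  rw [Finset.sum_powerset_apply_card (fun i => (1 + x) ^ ((pairs p).card - i * (p - i)) *
    (1 - x) ^ (i * (p - i))), Finset.mul_sum]
  rw [Finset.card_univ, Fintype.card_fin]
  apply Finset.sum_congr rfl
  intro i _
  rw [nsmul_eq_mul]
  ring

end H667R4
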